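import Mathlib
import Pool.Agent.Helper74.FB.RivC

/-! # Clusters of primes `√N < p < 4 √N` with `N - p` prime

For a positive proportion of the even `N` there are `r` primes `p` with `√N < p < 4 √N` and `N - p` prime in an
interval of bounded length; in fact there are at least `√N / (log N) ^ A` such intervals. -/

set_option autoImplicit false

namespace Pool.Agent.Results.MP_b454d1_nt.ClustersOfRiveraPrimes

open Finset

open Classical in
/-- the `m ≤ N` such that for all `h ∈ P` the number `p = m + h` is a prime with `N - p` prime and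
`√N < p < 4 √N` -/
noncomputable def clusters (P : Finset ℕ) (N : ℕ) : Finset ℕ :=
  (Icc 1 N).filter (fun m => ∀ h ∈ P, (m + h).Prime ∧ (N - (m + h)).Prime ∧
    Real.sqrt N < ((m + h : ℕ) : ℝ) ∧ ((m + h : ℕ) : ℝ) < 4 * Real.sqrt N)

/-- there is a set `P ⊆ [1, H]` of `r` shifts with at least `√N / (log N) ^ A` clusters -/
def HasClusters (r H A N : ℕ) : Prop :=
  ∃ P ⊆ Icc 1 H, P.card = r ∧ Real.sqrt N / Real.log N ^ A ≤ (((clusters P N).card : ℕ) : ℝ)

open Classical in
/-- **Clusters of primes `√N < p < 4 √N` with `N - p` prime.** -/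
theorem result (r : ℕ) (hr : 1 ≤ r) : ∃ H A : ℕ, ∃ κ : ℝ, 0 < κ ∧ ∃ X₀ : ℕ, ∀ X : ℕ, X₀ ≤ X →
      κ * X ≤ (({N ∈ Icc 1 X | Even N ∧ HasClusters r H A N}.card : ℕ) : ℝ) := by
  obtain ⟨H, A, κ, hκ, X₀, h1⟩ := Pool.Agent.Helper74.FB.rivC r hr
  have tN : Filter.Tendsto (fun N : ℕ => (N : ℝ)) Filter.atTop Filter.atTop :=
    tendsto_natCast_atTop_atTop
  have hlog : Filter.Tendsto (fun N : ℕ => Real.log (N : ℝ)) Filter.atTop Filter.atTop :=
    Real.tendsto_log_atTop.comp tN
  obtain ⟨X₁, hX₁⟩ := Filter.eventually_atTop.1 (hlog.eventually_ge_atTop (4 + 2 * Real.log 5120))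
  refine ⟨H, 2 * A, κ, hκ, max X₀ (max X₁ (5120 * 5120)), fun X hX => ?_⟩
  refine (h1 X ((le_max_left _ _).trans hX)).trans ?_
  have hXX₁ : X₁ ≤ X := ((le_max_left _ _).trans (le_max_right _ _)).trans hX
  have hXb : 5120 * 5120 ≤ X := ((le_max_right _ _).trans (le_max_right _ _)).trans hX
  have hlX := hX₁ X hXX₁
  have hl5 : 0 ≤ Real.log 5120 := Real.log_nonneg (by norm_num)
  have hX0 : (0 : ℝ) < X := by exact_mod_cast (by omega : 0 < X)
  rw [Nat.cast_le]
  apply card_le_card
  intro N hN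
  obtain ⟨hN1, hN2, P, hP, hPc, hcl⟩ := mem_filter.1 hN
  obtain ⟨hN3, hN4⟩ := mem_Icc.1 hN1
  have hN5 : 5120 ≤ N := by omega
  have hNr : (5120 : ℝ) ≤ N := by exact_mod_cast hN5
  have hN0 : (0 : ℝ) < N := by linarith
  have hPne : P.Nonempty := by
    rw [← card_pos, hPc]
    exact hr
  obtain ⟨h, hh⟩ := hPne
  refine mem_filter.2 ⟨hN1, ?_, P, hP, hPc, ?_⟩
  · have hpos : 0 < Real.sqrt X / Real.log X ^ A := by
      have : 0 < Real.log X := by linarith
      positivity
    have hne := lt_of_lt_of_le hpos hcl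
    rw [Nat.cast_pos, card_pos] at hne
    obtain ⟨m, hm⟩ := hne
    obtain ⟨hm1, hm2⟩ := mem_filter.1 hm
    obtain ⟨hp, ⟨q, hq, hq2⟩, hp2, hp3⟩ := hm2 h hh
    set p : ℕ := m + h with hpdef
    have hNpq : N = p + q := by
      have : (N : ℤ) = p + q := by
        rw [hq2, hpdef]
        push_cast
        ring
      exact_mod_cast this
    have hp71 : 71 ≤ p := by
      by_contra hcon
      have : p ≤ 70 := by omega
      nlinarith
    have hq3 : q ≠ 2 := by
      intro h0
      rw [hNpq, h0] at hp3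
      nlinarith
    have hpo : Odd p := hp.odd_of_ne_two (by omega)
    have hqo : Odd q := hq.odd_of_ne_two hq3
    rw [hNpq]
    exact hpo.add_odd hqo
  · have hlN : Real.log X / 2 ≤ Real.log N := by
      have e1 : (X : ℝ) ≤ 5120 * N := by exact_mod_cast hN2
      have e2 := Real.log_le_log hX0 e1
      rw [Real.log_mul (by norm_num) hN0.ne'] at e2
      linarith
    have e1 : Real.log X ^ A ≤ Real.log N ^ (2 * A) := by
      rw [pow_mul]
      apply pow_le_pow_left₀ (by linarith)
      have e2 : (Real.log X / 2) ^ 2 ≤ Real.log N ^ 2 := pow_le_pow_left₀ (by linarith) hlN 2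
      nlinarith
    have e2 : Real.sqrt N / Real.log N ^ (2 * A) ≤ Real.sqrt X / Real.log X ^ A := by
      have e3 : Real.sqrt N ≤ Real.sqrt X := Real.sqrt_le_sqrt (by exact_mod_cast hN4)
      have e4 : 0 < Real.log X := by linarith
      gcongr
    refine e2.trans (hcl.trans ?_)
    rw [Nat.cast_le]
    apply card_le_card
    intro m hm
    obtain ⟨hm1, hm2⟩ := mem_filter.1 hm
    have key : ∀ h ∈ P, (m + h).Prime ∧ (N - (m + h)).Prime ∧
        Real.sqrt N < ((m + h : ℕ) : ℝ) ∧ ((m + h : ℕ) : ℝ) < 4 * Real.sqrt N ∧ m + h ≤ N := by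
      intro h hh
      obtain ⟨hp, ⟨q, hq, hq2⟩, hp2, hp3⟩ := hm2 h hh
      have hNpq : N = (m + h) + q := by
        have : (N : ℤ) = ((m + h : ℕ) : ℤ) + q := by
          rw [hq2]
          push_cast
          ring
        exact_mod_cast this
      have hp0 : (0 : ℝ) < ((m + h : ℕ) : ℝ) := by exact_mod_cast hp.pos
      refine ⟨hp, ?_, ?_, ?_, by omega⟩
      · have : N - (m + h) = q := by omega
        rw [this]
        exact hq
      · rw [Real.sqrt_lt' hp0]
        exact_mod_cast hp2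
      · have e3 : ((m + h : ℕ) : ℝ) / 4 < Real.sqrt N := by
          rw [Real.lt_sqrt (by positivity)]
          have : (((m + h : ℕ) : ℝ)) ^ 2 < 16 * N := by exact_mod_cast hp3
          linarith
        linarith
    unfold clusters
    refine mem_filter.2 ⟨mem_Icc.2 ⟨(mem_Icc.1 hm1).1, ?_⟩, fun h hh => ?_⟩
    · have := (key h hh).2.2.2.2
      omega
    · obtain ⟨k1, k2, k3, k4, -⟩ := key h hh
      exact ⟨k1, k2, k3, k4⟩

end Pool.Agent.Results.MP_b454d1_nt.ClustersOfRiveraPrimes
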