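import Mathlib
import Pool.Agent.Helper74.FW.DenseJ

/-! # Rivera's window: one prime `p` for several even numbers

`𝒬` is any set of primes of `(Z, 6 Z / 5]` with at least `d Z / log Z` elements, and `𝓗` is an admissible set of
sufficiently many even shifts. For a positive proportion of the `J`-tuples of even `N j ≤ Z²` there are `r` shifts
`h ∈ 𝓗` such that many `p ∈ 𝒬` satisfy Rivera's condition for all the `r J` even numbers `N j + h`. -/

set_option autoImplicit false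

namespace Pool.Agent.Results.MP_b454d1_nt.CommonRiveraPrimes

open Finset

/-- `p` lies in Rivera's window of `n` and `n - p` is a prime -/
def Rep (n p : ℕ) : Prop :=
  (Real.sqrt n < p ∧ (p : ℝ) < 4 * Real.sqrt n) ∧ p.Prime ∧ p < n ∧ (n - p).Prime

/-- the shifts are even and for every prime `p` they miss a class modulo `p` -/
def Admissible (𝓗 : Finset ℕ) : Prop :=
  (∀ h ∈ 𝓗, Even h) ∧ ∀ p : ℕ, p.Prime → ∃ w : ℤ, ∀ h ∈ 𝓗, ¬ (p : ℤ) ∣ w + h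

open Classical in
/-- for `r` of the shifts there are at least `B` primes `p ∈ 𝒬` which represent all the `N j + h` -/
def Many {J : ℕ} (𝓗 : Finset ℕ) (r : ℕ) (𝒬 : Finset ℕ) (B : ℝ) (N : Fin J → ℕ) : Prop :=
  ∃ P ⊆ 𝓗, P.card = r ∧ B ≤ (((𝒬.filter (fun p : ℕ => ∀ j, ∀ h ∈ P, Rep (N j + h) p)).card : ℕ) : ℝ)

open Classical in
/-- **One prime in Rivera's window of several even numbers.** -/
theorem result (J r : ℕ) (hr : 1 ≤ r) : ∃ K A : ℕ, ∀ 𝓗 : Finset ℕ, K ≤ 𝓗.card → Admissible 𝓗 →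
    ∀ d : ℝ, 0 < d → ∃ κ : ℝ, 0 < κ ∧ ∃ Z₀ : ℕ, ∀ Z : ℕ, Z₀ ≤ Z →
      ∀ 𝒬 : Finset ℕ, (∀ p ∈ 𝒬, p.Prime ∧ Z < p ∧ 5 * p ≤ 6 * Z) → d * (Z / Real.log Z) ≤ (𝒬.card : ℝ) →
      κ * ((Z : ℝ) ^ 2) ^ J ≤
        (({N ∈ Fintype.piFinset (fun _ : Fin J => Icc 1 (Z ^ 2)) |
          (∀ j, Even (N j)) ∧ Many 𝓗 r 𝒬 (Z / Real.log Z ^ A) N}.card : ℕ) : ℝ) := by
  obtain ⟨K, B, h1⟩ := Pool.Agent.Helper74.FW.denseJ J r hr
  refine ⟨K, B + 1, fun 𝓗 h𝓗 hadm d hd => ?_⟩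
  obtain ⟨heven, hcov⟩ := hadm
  obtain ⟨Q, hQ⟩ : ∃ Q : Fin J → ℕ → Polynomial ℤ, Q = fun (_ : Fin J) (i : ℕ) =>
    (Polynomial.C (-1 : ℤ) * Polynomial.X + Polynomial.C ((i : ℕ) : ℤ)) := ⟨_, rfl⟩
  have hev : ∀ j i, ∀ x : ℤ, (Q j i).eval x = i - x := by
    intro j i x
    simp [hQ]
    ring
  have hdeg : ∀ j, ∀ i, (Q j i).natDegree = 1 := by
    intro j i
    rw [hQ]
    exact Polynomial.natDegree_linear (by norm_num)
  obtain ⟨κ, hκ, X₀, h2⟩ := h1 𝓗 h𝓗 Q (fun j i _ => by rw [hdeg j i]) (by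
      intro j i hi i' hi' heq
      have e0 : (Q j i).eval 0 = (Q j i').eval 0 := by rw [heq]
      rw [hev, hev] at e0
      have : (i : ℤ) = i' := by linarith
      exact_mod_cast this) (by
      intro p hp u hu j
      obtain ⟨w, hw⟩ := hcov p hp
      refine ⟨w + u, fun i hi hd => hw i hi ?_⟩
      rw [hev] at hd
      have e1 : w + u + ((i : ℤ) - u) = w + i := by ring
      rwa [e1] at hd) (d / 2) (by positivity)
  -- growth
  obtain ⟨H, hH⟩ : ∃ H : ℕ, ∀ h ∈ 𝓗, h ≤ H :=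
    ⟨∑ h ∈ 𝓗, h, fun h hh => single_le_sum (f := fun h => h) (fun _ _ => Nat.zero_le _) hh⟩
  obtain ⟨x₀, hx₀⟩ := Filter.eventually_atTop.1
    ((Real.isLittleO_pow_log_id_atTop (n := B)).bound (c := 1 / 3 ^ B) (by positivity))
  obtain ⟨x₁, hx₁⟩ := Filter.eventually_atTop.1 (Real.tendsto_log_atTop.eventually_ge_atTop ((3 : ℝ) ^ B))
  obtain ⟨n₁, hn₁⟩ := exists_nat_ge x₀
  obtain ⟨n₂, hn₂⟩ := exists_nat_ge (2 / κ)
  obtain ⟨n₃, hn₃⟩ := exists_nat_ge x₁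
  refine ⟨κ, hκ, X₀ + n₁ + n₂ + n₃ + H + 100, fun Z hZ 𝒬 h𝒬 hcard => ?_⟩
  have hZ100 : 100 ≤ Z := by omega
  have hZr : (100 : ℝ) ≤ Z := by exact_mod_cast hZ100
  obtain ⟨X, hX⟩ : ∃ X : ℕ, X = 64 * Z ^ 2 / 33 := ⟨_, rfl⟩
  obtain ⟨Y, hY⟩ : ∃ Y : ℕ, Y = 6 * Z / 5 := ⟨_, rfl⟩
  obtain ⟨z, hz⟩ : ∃ z : ℕ, z = Z ^ 2 := ⟨_, rfl⟩
  have hzZ : 100 * Z ≤ z := by rw [hz, sq]; exact Nat.mul_le_mul_right _ hZ100
  rw [← hz] at hX
  have hX1 : z ≤ X := by omega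
  have hX2 : X ≤ 2 * z := by omega
  have hYZ1 : Z ≤ Y := by omega
  have hYZ2 : Y ≤ 2 * Z := by omega
  have hX0 : (0 : ℝ) < X := by exact_mod_cast (by omega : 0 < X)
  have hlogZ : 0 < Real.log Z := Real.log_pos (by linarith)
  have hlogX0 : 0 < Real.log X := Real.log_pos (by exact_mod_cast (by omega : 1 < X))
  have hX3 : X ≤ Z ^ 3 := by
    calc X ≤ 2 * z := hX2
      _ = 2 * Z ^ 2 := by rw [hz]
      _ ≤ Z * Z ^ 2 := Nat.mul_le_mul_right _ (by omega)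
      _ = Z ^ 3 := by ring
  have hlogX : Real.log X ≤ 3 * Real.log Z := by
    have h4 : Real.log X ≤ Real.log ((Z : ℝ) ^ 3) := Real.log_le_log hX0 (by exact_mod_cast hX3)
    rw [Real.log_pow] at h4
    exact_mod_cast h4
  have hYlog : Real.log X ^ B ≤ (Y : ℝ) := by
    have h7 := hx₀ Z (by
      refine hn₁.trans ?_
      exact_mod_cast (by omega : n₁ ≤ Z))
    rw [Real.norm_of_nonneg (by positivity), id, Real.norm_of_nonneg (by positivity)] at h7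
    calc Real.log X ^ B ≤ (3 * Real.log Z) ^ B := pow_le_pow_left₀ hlogX0.le hlogX B
      _ = 3 ^ B * Real.log Z ^ B := mul_pow _ _ _
      _ ≤ 3 ^ B * (1 / 3 ^ B * Z) := mul_le_mul_of_nonneg_left h7 (by positivity)
      _ = Z := by field_simp
      _ ≤ (Y : ℝ) := by exact_mod_cast hYZ1
  have hYκ : (Y : ℝ) ≤ κ * X := by
    have h3 : 2 / κ ≤ (Z : ℝ) := by
      refine hn₂.trans ?_
      exact_mod_cast (by omega : n₂ ≤ Z)
    rw [div_le_iff₀ hκ] at h3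
    have h4 : (Y : ℝ) ≤ 2 * Z := by exact_mod_cast hYZ2
    have h5 : (Z : ℝ) * Z ≤ X := by
      have : Z * Z ≤ X := by
        rw [← sq, ← hz]
        exact hX1
      exact_mod_cast this
    calc (Y : ℝ) ≤ 2 * Z := h4
      _ ≤ (Z * κ) * Z := mul_le_mul_of_nonneg_right h3 (by linarith)
      _ = κ * (Z * Z) := by ring
      _ ≤ κ * X := mul_le_mul_of_nonneg_left h5 hκ.le
  have hsub : 𝒬 ⊆ (Icc 1 Y).filter Nat.Prime := by
    intro p hp
    obtain ⟨h3, h4, h5⟩ := h𝒬 p hp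
    exact mem_filter.2 ⟨mem_Icc.2 ⟨h3.one_lt.le, by omega⟩, h3⟩
  have hYr : (0 : ℝ) < Y := by exact_mod_cast (by omega : 0 < Y)
  have hdc : d / 2 * ((Y : ℝ) / Real.log Y) ≤ (𝒬.card : ℝ) := by
    refine le_trans ?_ hcard
    have h3 : Real.log Z ≤ Real.log Y := Real.log_le_log (by linarith) (by exact_mod_cast hYZ1)
    have h4 : (Y : ℝ) ≤ 2 * Z := by exact_mod_cast hYZ2
    calc d / 2 * ((Y : ℝ) / Real.log Y) ≤ d / 2 * ((2 * Z) / Real.log Z) := by gcongr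
      _ = d * (Z / Real.log Z) := by ring
  have hmain := h2 X (by omega) Y hYlog hYκ (fun j i hi => by rw [hdeg j i, pow_one]; exact hYκ) 𝒬 hsub hdc
  have hZX : ((Z : ℝ) ^ 2) ^ J ≤ (X : ℝ) ^ J := by
    apply pow_le_pow_left₀ (by positivity)
    have : Z ^ 2 ≤ X := by rw [← hz]; exact hX1
    exact_mod_cast this
  refine (mul_le_mul_of_nonneg_left hZX hκ.le).trans (hmain.trans ?_)
  rw [Nat.cast_le]
  apply card_le_card
  intro N hN
  obtain ⟨hN1, hN2, P, hP, hPc, hcl⟩ := mem_filter.1 hN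
  have hNz : ∀ j, N j ≤ z ∧ 2 * z ≤ 22 * N j + 1 := by
    intro j
    have h5 := hN2 j
    have h6 : 33 * X ≤ 64 * z := by rw [hX]; omega
    have h7 : 64 * z ≤ 33 * X + 32 := by rw [hX]; omega
    omega
  have hcl1 : (Y : ℝ) / Real.log X ^ B ≤
      (((𝒬.filter (fun p : ℕ => ∀ j, ∀ h ∈ P, Rep (N j + h) p)).card : ℕ) : ℝ) := by
    refine hcl.trans ?_
    rw [Nat.cast_le]
    apply card_le_card
    intro p hp
    obtain ⟨hp1, hp2⟩ := mem_filter.1 hp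
    obtain ⟨hp3, hp4, hp5⟩ := h𝒬 p hp1
    refine mem_filter.2 ⟨hp1, fun j h hh => ?_⟩
    obtain ⟨q, hq, hq2⟩ := hp2 j h hh
    obtain ⟨h5, h5'⟩ := hNz j
    have hhH : h ≤ Z := (hH h (hP hh)).trans (by omega)
    rw [hev] at hq2
    have h6 : N j + h - p = q := by omega
    have hp0 : (0 : ℝ) < p := by exact_mod_cast hp3.pos
    refine ⟨⟨?_, ?_⟩, hp3, by omega, ?_⟩
    · rw [Real.sqrt_lt' hp0]
      have h7 : N j + h < p ^ 2 := by
        have h8 : (Z + 1) ^ 2 ≤ p ^ 2 := Nat.pow_le_pow_left hp4 2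
        have h9 : (Z + 1) ^ 2 = z + 2 * Z + 1 := by rw [hz]; ring
        omega
      exact_mod_cast h7
    · have h7 : (p : ℝ) < Real.sqrt (16 * ((N j + h : ℕ) : ℝ)) := by
        rw [Real.lt_sqrt hp0.le]
        have h8 : p ^ 2 < 16 * (N j + h) := by
          have h9 : (5 * p) ^ 2 ≤ (6 * Z) ^ 2 := Nat.pow_le_pow_left hp5 2
          have h10 : 25 * p ^ 2 ≤ 36 * z := by
            rw [hz]
            nlinarith
          omega
        exact_mod_cast h8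
      have h11 : Real.sqrt (16 * ((N j + h : ℕ) : ℝ)) = 4 * Real.sqrt ((N j + h : ℕ) : ℝ) := by
        rw [Real.sqrt_mul (by norm_num), show (16 : ℝ) = 4 ^ 2 by norm_num, Real.sqrt_sq (by norm_num)]
      rwa [h11] at h7
    · rw [h6]
      exact hq
  have hcl2 : (Z : ℝ) / Real.log Z ^ (B + 1) ≤
      (((𝒬.filter (fun p : ℕ => ∀ j, ∀ h ∈ P, Rep (N j + h) p)).card : ℕ) : ℝ) := by
    refine le_trans ?_ hcl1
    have h3 : (3 : ℝ) ^ B ≤ Real.log Z := hx₁ Z (by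
      refine hn₃.trans ?_
      exact_mod_cast (by omega : n₃ ≤ Z))
    have h4 : Real.log X ^ B ≤ Real.log Z ^ (B + 1) := by
      calc Real.log X ^ B ≤ (3 * Real.log Z) ^ B := pow_le_pow_left₀ hlogX0.le hlogX B
        _ = 3 ^ B * Real.log Z ^ B := mul_pow _ _ _
        _ ≤ Real.log Z * Real.log Z ^ B := mul_le_mul_of_nonneg_right h3 (by positivity)
        _ = Real.log Z ^ (B + 1) := by ring
    calc (Z : ℝ) / Real.log Z ^ (B + 1) ≤ (Z : ℝ) / Real.log X ^ B :=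
          div_le_div_of_nonneg_left (by linarith) (by positivity) h4
      _ ≤ (Y : ℝ) / Real.log X ^ B := by
          apply div_le_div_of_nonneg_right _ (by positivity)
          exact_mod_cast hYZ1
  refine mem_filter.2 ⟨?_, ?_, P, hP, hPc, hcl2⟩
  · rw [Fintype.mem_piFinset]
    intro j
    rw [mem_Icc, ← hz]
    obtain ⟨h5, h5'⟩ := hNz j
    omega
  · have hpos : 0 < (((𝒬.filter (fun p : ℕ => ∀ j, ∀ h ∈ P, Rep (N j + h) p)).card : ℕ) : ℝ) :=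
      lt_of_lt_of_le (by positivity) hcl2
    obtain ⟨p, hp⟩ := card_pos.1
      (by exact_mod_cast hpos : 0 < (𝒬.filter (fun p : ℕ => ∀ j, ∀ h ∈ P, Rep (N j + h) p)).card)
    obtain ⟨hp1, hq⟩ := mem_filter.1 hp
    obtain ⟨hp3, hp4, hp5⟩ := h𝒬 p hp1
    obtain ⟨h, hh⟩ := card_pos.1 (by omega : 0 < P.card)
    intro j
    obtain ⟨-, -, h4, h6⟩ := hq j h hh
    obtain ⟨h5, h5'⟩ := hNz j
    have o1 : Odd p := hp3.odd_of_ne_two (by omega)
    have o2 : Odd (N j + h - p) := h6.odd_of_ne_two (by omega)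
    have o3 := o2.add_odd o1
    rw [Nat.sub_add_cancel h4.le] at o3
    exact (Nat.even_add.1 o3).2 (heven h (hP hh))

end Pool.Agent.Results.MP_b454d1_nt.CommonRiveraPrimes
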