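import Mathlib
import Pool.Agent.Helper74.FW.Dense

/-! # Rivera's window: the prime `p` in an arbitrary dense set of primes

`𝒬` is any set of primes of `(Z, 6 Z / 5]` with at least `d Z / log Z` elements, and `(a i, b i)`, `i ∈ I`, are
sufficiently many pairs of integers. For a positive proportion of the `J`-tuples of even `N j ≤ Z²` there are many
`p ∈ 𝒬` with `√(N j) < p < 4 √(N j)` such that all the `N j - p` are primes and for `r` of the pairs all the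
`N j - a i * p - b i` have at most two prime factors. -/

set_option autoImplicit false

namespace Pool.Agent.Results.MP_b454d1_nt.DenseSetsInTheWindow

open Finset

/-- the integer `z` is `> 1` and has at most two prime factors, counted with multiplicity -/
def AlmostPrime (z : ℤ) : Prop := ∃ q : ℕ, 1 < q ∧ (q : ℤ) = z ∧ q.primeFactorsList.length ≤ 2

/-- the pairs `(a i, b i)`, `i ∈ I`, are distinct, `a i ≠ 0`, and for every prime `p` and every `u` prime to `p` the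
numbers `a i * u + b i` miss a class modulo `p` -/
def Admissible (I : Finset ℕ) (a b : ℕ → ℤ) : Prop :=
  (∀ i ∈ I, ∀ i' ∈ I, a i = a i' → b i = b i' → i = i') ∧ (∀ i ∈ I, a i ≠ 0) ∧
    ∀ p : ℕ, p.Prime → ∀ u : ℤ, ¬ (p : ℤ) ∣ u → ∃ w : ℤ, ∀ i ∈ I, ¬ (p : ℤ) ∣ w - (a i * u + b i)

/-- `N j = p + q j` with primes `q j` and `√(N j) < p < 4 √(N j)`, and all the `N j - a i * p - b i`, `i ∈ P`, have at
most two prime factors -/
def Good {J : ℕ} (a b : ℕ → ℤ) (P : Finset ℕ) (N : Fin J → ℕ) (p : ℕ) : Prop :=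
  ∀ j, (Real.sqrt (N j) < p ∧ (p : ℝ) < 4 * Real.sqrt (N j)) ∧ p < N j ∧ (N j - p).Prime ∧
    ∀ i ∈ P, AlmostPrime ((N j : ℤ) - a i * p - b i)

open Classical in
/-- for `r` of the pairs, different from the `i₀`-th, at least `B` of the `p ∈ 𝒬` are good -/
def Many {J : ℕ} (I : Finset ℕ) (i₀ : ℕ) (a b : ℕ → ℤ) (r : ℕ) (𝒬 : Finset ℕ) (B : ℝ) (N : Fin J → ℕ) : Prop :=
  ∃ P ⊆ I.erase i₀, P.card = r ∧ B ≤ (((𝒬.filter (fun p => Good a b P N p)).card : ℕ) : ℝ)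

open Classical in
/-- **Rivera's window and arbitrary dense sets of primes.** -/
theorem result (J r : ℕ) : ∃ K A : ℕ, ∀ (I : Finset ℕ) (a b : ℕ → ℤ), K ≤ I.card → Admissible I a b →
    ∀ i₀ ∈ I, a i₀ = 1 → b i₀ = 0 → ∀ d : ℝ, 0 < d →
    ∃ κ : ℝ, 0 < κ ∧ ∃ Z₀ : ℕ, ∀ Z : ℕ, Z₀ ≤ Z →
      ∀ 𝒬 : Finset ℕ, (∀ p ∈ 𝒬, p.Prime ∧ Z < p ∧ 5 * p ≤ 6 * Z) → d * (Z / Real.log Z) ≤ (𝒬.card : ℝ) →
      κ * ((Z : ℝ) ^ 2) ^ J ≤
        (({N ∈ Fintype.piFinset (fun _ : Fin J => Icc 1 (Z ^ 2)) |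
          (∀ j, Even (N j)) ∧ Many I i₀ a b r 𝒬 (Z / Real.log Z ^ A) N}.card : ℕ) : ℝ) := by
  obtain ⟨K, B, h1⟩ := Pool.Agent.Helper74.FW.denseJQ J r
  refine ⟨K, B + 1, fun I a b hI hadm i₀ hi₀ ha₀ hb₀ d hd => ?_⟩
  obtain ⟨hdist, hne, hcov⟩ := hadm
  obtain ⟨Q, hQ⟩ : ∃ Q : Fin J → ℕ → Polynomial ℤ, Q = fun _ i =>
    -(Polynomial.C (a i) * Polynomial.X + Polynomial.C (b i)) := ⟨_, rfl⟩
  have hev : ∀ j i, ∀ x : ℤ, (Q j i).eval x = -(a i * x + b i) := by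
    intro j i x
    simp [hQ]
  have hdeg : ∀ j, ∀ i ∈ I, (Q j i).natDegree = 1 := by
    intro j i hi
    rw [hQ]
    simp only
    rw [Polynomial.natDegree_neg]
    exact Polynomial.natDegree_linear (hne i hi)
  obtain ⟨κ, hκ, X₀, h2⟩ := h1 I hI Q (fun j i hi => by rw [hdeg j i hi]) (by
      intro j i hi i' hi' heq
      have e0 : (Q j i).eval 0 = (Q j i').eval 0 := by rw [heq]
      have e1 : (Q j i).eval 1 = (Q j i').eval 1 := by rw [heq]
      rw [hev, hev] at e0 e1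
      exact hdist i hi i' hi' (by linarith) (by linarith)) (by
      intro p hp u hu j
      obtain ⟨w, hw⟩ := hcov p hp u hu
      refine ⟨w, fun i hi hd => hw i hi ?_⟩
      rw [hev] at hd
      rw [sub_eq_add_neg]
      exact hd) i₀ hi₀ (d / 2) (by positivity)
  -- growth
  obtain ⟨x₀, hx₀⟩ := Filter.eventually_atTop.1
    ((Real.isLittleO_pow_log_id_atTop (n := B)).bound (c := 1 / 3 ^ B) (by positivity))
  obtain ⟨x₁, hx₁⟩ := Filter.eventually_atTop.1 (Real.tendsto_log_atTop.eventually_ge_atTop ((3 : ℝ) ^ B))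
  obtain ⟨n₁, hn₁⟩ := exists_nat_ge x₀
  obtain ⟨n₂, hn₂⟩ := exists_nat_ge (2 / κ)
  obtain ⟨n₃, hn₃⟩ := exists_nat_ge x₁
  refine ⟨κ, hκ, X₀ + n₁ + n₂ + n₃ + 100, fun Z hZ 𝒬 h𝒬 hcard => ?_⟩
  have hZ100 : 100 ≤ Z := by omega
  have hZr : (100 : ℝ) ≤ Z := by exact_mod_cast hZ100
  obtain ⟨X, hX⟩ : ∃ X : ℕ, X = 64 * Z ^ 2 / 33 := ⟨_, rfl⟩
  obtain ⟨Y, hY⟩ : ∃ Y : ℕ, Y = 6 * Z / 5 := ⟨_, rfl⟩
  obtain ⟨z, hz⟩ : ∃ z : ℕ, z = Z ^ 2 := ⟨_, rfl⟩
  have hzZ : 100 * Z ≤ z := by rw [hz, sq]; exact Nat.mul_le_mul_right _ hZ100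
  rw [← hz] at hX
  have hX1 : z ≤ X := by omega
  have hX2 : X ≤ 2 * z := by omega
  have hYZ1 : Z ≤ Y := by omega
  have hYZ2 : Y ≤ 2 * Z := by omega
  have hX0 : (0 : ℝ) < X := by exact_mod_cast (by omega : 0 < X)
  have hlogZ : 0 < Real.log Z := Real.log_pos (by linarith)
  have hlogX0 : 0 < Real.log X := Real.log_pos (by exact_mod_cast (by omega : 1 < X))
  have hX3 : X ≤ Z ^ 3 := by
    calc X ≤ 2 * z := hX2
      _ = 2 * Z ^ 2 := by rw [hz]
      _ ≤ Z * Z ^ 2 := Nat.mul_le_mul_right _ (by omega)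
      _ = Z ^ 3 := by ring
  have hlogX : Real.log X ≤ 3 * Real.log Z := by
    have h4 : Real.log X ≤ Real.log ((Z : ℝ) ^ 3) := Real.log_le_log hX0 (by exact_mod_cast hX3)
    rw [Real.log_pow] at h4
    exact_mod_cast h4
  have hYlog : Real.log X ^ B ≤ (Y : ℝ) := by
    have h7 := hx₀ Z (by
      refine hn₁.trans ?_
      exact_mod_cast (by omega : n₁ ≤ Z))
    rw [Real.norm_of_nonneg (by positivity), id, Real.norm_of_nonneg (by positivity)] at h7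
    calc Real.log X ^ B ≤ (3 * Real.log Z) ^ B := pow_le_pow_left₀ hlogX0.le hlogX B
      _ = 3 ^ B * Real.log Z ^ B := mul_pow _ _ _
      _ ≤ 3 ^ B * (1 / 3 ^ B * Z) := mul_le_mul_of_nonneg_left h7 (by positivity)
      _ = Z := by field_simp
      _ ≤ (Y : ℝ) := by exact_mod_cast hYZ1
  have hYκ : (Y : ℝ) ≤ κ * X := by
    have h3 : 2 / κ ≤ (Z : ℝ) := by
      refine hn₂.trans ?_
      exact_mod_cast (by omega : n₂ ≤ Z)
    rw [div_le_iff₀ hκ] at h3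
    have h4 : (Y : ℝ) ≤ 2 * Z := by exact_mod_cast hYZ2
    have h5 : (Z : ℝ) * Z ≤ X := by
      have : Z * Z ≤ X := by
        rw [← sq, ← hz]
        exact hX1
      exact_mod_cast this
    calc (Y : ℝ) ≤ 2 * Z := h4
      _ ≤ (Z * κ) * Z := mul_le_mul_of_nonneg_right h3 (by linarith)
      _ = κ * (Z * Z) := by ring
      _ ≤ κ * X := mul_le_mul_of_nonneg_left h5 hκ.le
  have hsub : 𝒬 ⊆ (Icc 1 Y).filter Nat.Prime := by
    intro p hp
    obtain ⟨h3, h4, h5⟩ := h𝒬 p hp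
    exact mem_filter.2 ⟨mem_Icc.2 ⟨h3.one_lt.le, by omega⟩, h3⟩
  have hYr : (0 : ℝ) < Y := by exact_mod_cast (by omega : 0 < Y)
  have hdc : d / 2 * ((Y : ℝ) / Real.log Y) ≤ (𝒬.card : ℝ) := by
    refine le_trans ?_ hcard
    have h3 : Real.log Z ≤ Real.log Y := Real.log_le_log (by linarith) (by exact_mod_cast hYZ1)
    have h4 : (Y : ℝ) ≤ 2 * Z := by exact_mod_cast hYZ2
    calc d / 2 * ((Y : ℝ) / Real.log Y) ≤ d / 2 * ((2 * Z) / Real.log Z) := by gcongr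
      _ = d * (Z / Real.log Z) := by ring
  have hmain := h2 X (by omega) Y hYlog hYκ (fun j i hi => by rw [hdeg j i hi, pow_one]; exact hYκ) 𝒬 hsub hdc
  have hZX : ((Z : ℝ) ^ 2) ^ J ≤ (X : ℝ) ^ J := by
    apply pow_le_pow_left₀ (by positivity)
    have : Z ^ 2 ≤ X := by rw [← hz]; exact hX1
    exact_mod_cast this
  refine (mul_le_mul_of_nonneg_left hZX hκ.le).trans (hmain.trans ?_)
  rw [Nat.cast_le]
  apply card_le_card
  intro N hN
  obtain ⟨hN1, hN2, P, hP, hPc, hcl⟩ := mem_filter.1 hN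
  have hNz : ∀ j, N j ≤ z ∧ 2 * z ≤ 22 * N j + 1 := by
    intro j
    have h5 := hN2 j
    have h6 : 33 * X ≤ 64 * z := by rw [hX]; omega
    have h7 : 64 * z ≤ 33 * X + 32 := by rw [hX]; omega
    omega
  have hcl1 : (Y : ℝ) / Real.log X ^ B ≤ (((𝒬.filter (fun p => Good a b P N p)).card : ℕ) : ℝ) := by
    refine hcl.trans ?_
    rw [Nat.cast_le]
    apply card_le_card
    intro p hp
    obtain ⟨hp1, hp2⟩ := mem_filter.1 hp
    obtain ⟨hp3, hp4, hp5⟩ := h𝒬 p hp1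
    refine mem_filter.2 ⟨hp1, fun j => ?_⟩
    obtain ⟨⟨q, hq, hq2⟩, hq3⟩ := hp2 j
    obtain ⟨h5, h5'⟩ := hNz j
    rw [hev, ha₀, hb₀] at hq2
    have h6 : N j - p = q := by omega
    have hp0 : (0 : ℝ) < p := by exact_mod_cast hp3.pos
    refine ⟨⟨?_, ?_⟩, by omega, ?_, fun i hi => ?_⟩
    · rw [Real.sqrt_lt' hp0]
      have h7 : N j < p ^ 2 := by
        have h8 : Z ^ 2 < p ^ 2 := Nat.pow_lt_pow_left hp4 (by norm_num)
        omega
      exact_mod_cast h7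
    · have h7 : (p : ℝ) < Real.sqrt (16 * N j) := by
        rw [Real.lt_sqrt hp0.le]
        have h8 : p ^ 2 < 16 * N j := by
          have h9 : (5 * p) ^ 2 ≤ (6 * Z) ^ 2 := Nat.pow_le_pow_left hp5 2
          have h10 : 25 * p ^ 2 ≤ 36 * z := by
            rw [hz]
            nlinarith
          omega
        exact_mod_cast h8
      have h11 : Real.sqrt (16 * N j) = 4 * Real.sqrt (N j) := by
        rw [Real.sqrt_mul (by norm_num), show (16 : ℝ) = 4 ^ 2 by norm_num, Real.sqrt_sq (by norm_num)]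
      rwa [h11] at h7
    · rw [h6]
      exact hq
    · obtain ⟨y, hy, hy2, hy3⟩ := hq3 i hi
      rw [hev] at hy2
      exact ⟨y, hy, by rw [hy2]; ring, hy3⟩
  have hcl2 : (Z : ℝ) / Real.log Z ^ (B + 1) ≤ (((𝒬.filter (fun p => Good a b P N p)).card : ℕ) : ℝ) := by
    refine le_trans ?_ hcl1
    have h3 : (3 : ℝ) ^ B ≤ Real.log Z := hx₁ Z (by
      refine hn₃.trans ?_
      exact_mod_cast (by omega : n₃ ≤ Z))
    have h4 : Real.log X ^ B ≤ Real.log Z ^ (B + 1) := by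
      calc Real.log X ^ B ≤ (3 * Real.log Z) ^ B := pow_le_pow_left₀ hlogX0.le hlogX B
        _ = 3 ^ B * Real.log Z ^ B := mul_pow _ _ _
        _ ≤ Real.log Z * Real.log Z ^ B := mul_le_mul_of_nonneg_right h3 (by positivity)
        _ = Real.log Z ^ (B + 1) := by ring
    calc (Z : ℝ) / Real.log Z ^ (B + 1) ≤ (Z : ℝ) / Real.log X ^ B :=
          div_le_div_of_nonneg_left (by linarith) (by positivity) h4
      _ ≤ (Y : ℝ) / Real.log X ^ B := by
          apply div_le_div_of_nonneg_right _ (by positivity)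
          exact_mod_cast hYZ1
  refine mem_filter.2 ⟨?_, ?_, P, hP, hPc, hcl2⟩
  · rw [Fintype.mem_piFinset]
    intro j
    rw [mem_Icc, ← hz]
    obtain ⟨h5, h5'⟩ := hNz j
    omega
  · have hpos : 0 < (((𝒬.filter (fun p => Good a b P N p)).card : ℕ) : ℝ) :=
      lt_of_lt_of_le (by positivity) hcl2
    obtain ⟨p, hp⟩ := card_pos.1 (by exact_mod_cast hpos : 0 < (𝒬.filter (fun p => Good a b P N p)).card)
    obtain ⟨hp1, hq⟩ := mem_filter.1 hp
    obtain ⟨hp3, hp4, hp5⟩ := h𝒬 p hp1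
    intro j
    obtain ⟨-, h4, h6, -⟩ := hq j
    obtain ⟨h5, h5'⟩ := hNz j
    have o1 : Odd p := hp3.odd_of_ne_two (by omega)
    have o2 : Odd (N j - p) := h6.odd_of_ne_two (by omega)
    have o3 := o2.add_odd o1
    rwa [Nat.sub_add_cancel h4.le] at o3

end Pool.Agent.Results.MP_b454d1_nt.DenseSetsInTheWindow
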