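import Mathlib
import Pool.Agent.Helper74.FB.RivQ

/-! # Primes `√N < p < 4 √N` with `N - p` prime such that both have almost prime neighbours

For a positive proportion of the even `N` there are at least `√N / (log N) ^ A` primes `p` with
`√N < p < 4 √N` and `N - p` prime such that each of `T₁` given groups of shifts contains an `h` for which
`p + h` has at most two prime factors, and each of `T₂` given groups of shifts contains an `h` for which
`N - p - h` has at most two prime factors. -/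

set_option autoImplicit false

namespace Pool.Agent.Results.MP_b454d1_nt.RiveraPrimesWithNeighbours

open Finset

/-- the integer `z` is `> 1` and has at most two prime factors, counted with multiplicity -/
def AlmostPrime (z : ℤ) : Prop := ∃ q : ℕ, 1 < q ∧ (q : ℤ) = z ∧ q.primeFactorsList.length ≤ 2

/-- an admissible family of shifts which contains `0`: the shifts are distinct and for every prime `p` there is
a `v` such that none of the numbers `v + h g i` is divisible by `p` -/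
def Admissible {T K : ℕ} (h : Fin T → Fin K → ℤ) : Prop :=
  Function.Injective (fun x : Fin T × Fin K => h x.1 x.2) ∧ (∃ g i, h g i = 0) ∧
    ∀ p : ℕ, p.Prime → ∃ v : ℤ, ∀ g i, ¬ (p : ℤ) ∣ v + h g i

open Classical in
/-- the primes `p` with `√N < p < 4 √N` such that `N - p` is prime, `p + h₁ g (τ₁ g)` has at most two
prime factors for all `g`, and `N - p - h₂ g (τ₂ g)` has at most two prime factors for all `g` -/
noncomputable def riveraPrimes {T₁ K₁ T₂ K₂ : ℕ} (h₁ : Fin T₁ → Fin K₁ → ℤ) (h₂ : Fin T₂ → Fin K₂ → ℕ)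
    (τ₁ : Fin T₁ → Fin K₁) (τ₂ : Fin T₂ → Fin K₂) (N : ℕ) : Finset ℕ :=
  (Icc 1 N).filter (fun p : ℕ => p.Prime ∧ (N - p).Prime ∧ Real.sqrt N < p ∧ (p : ℝ) < 4 * Real.sqrt N ∧
    (∀ g, AlmostPrime ((p : ℤ) + h₁ g (τ₁ g))) ∧ ∀ g, AlmostPrime ((N : ℤ) - p - h₂ g (τ₂ g)))

/-- for one choice of shifts, one in every group, there are at least `√N / (log N) ^ A` such primes -/
def Many {T₁ K₁ T₂ K₂ : ℕ} (h₁ : Fin T₁ → Fin K₁ → ℤ) (h₂ : Fin T₂ → Fin K₂ → ℕ) (A N : ℕ) : Prop :=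
  ∃ (τ₁ : Fin T₁ → Fin K₁) (τ₂ : Fin T₂ → Fin K₂),
    Real.sqrt N / Real.log N ^ A ≤ (((riveraPrimes h₁ h₂ τ₁ τ₂ N).card : ℕ) : ℝ)

open Classical in
/-- **Primes `√N < p < 4 √N` with `N - p` prime such that both have almost prime neighbours.** -/
theorem result (T₁ T₂ : ℕ) (hT₁ : 1 ≤ T₁) (hT₂ : 1 ≤ T₂) : ∃ K₁ K₂ A : ℕ, 1 ≤ K₁ ∧ 1 ≤ K₂ ∧
    ∀ (h₁ : Fin T₁ → Fin K₁ → ℤ) (h₂ : Fin T₂ → Fin K₂ → ℕ), Admissible h₁ →
    Admissible (fun g i => (h₂ g i : ℤ)) →
    ∃ κ : ℝ, 0 < κ ∧ ∃ X₀ : ℕ, ∀ X : ℕ, X₀ ≤ X →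
      κ * X ≤ (({N ∈ Icc 1 X | Even N ∧ Many h₁ h₂ A N}.card : ℕ) : ℝ) := by
  obtain ⟨K₁, K₂, A, hK₁, hK₂, H⟩ := Pool.Agent.Helper74.FB.rivQ T₁ T₂ hT₁ hT₂
  refine ⟨K₁, K₂, 2 * A, hK₁, hK₂, ?_⟩
  intro h₁ h₂ hadm₁ hadm₂
  obtain ⟨hi₁, hz₁, ha₁⟩ := hadm₁
  obtain ⟨hi₂, hz₂, ha₂⟩ := hadm₂
  obtain ⟨κ, hκ, X₀, h3⟩ := H h₁ hi₁ h₂ (by
      intro x y hxy
      apply hi₂
      exact congrArg (fun n : ℕ => (n : ℤ)) hxy) hz₁ (by
      obtain ⟨g, i, hgi⟩ := hz₂
      have h5 : ((h₂ g i : ℕ) : ℤ) = 0 := hgi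
      exact ⟨g, i, by exact_mod_cast h5⟩) (by
      intro p hp
      obtain ⟨v, hv⟩ := ha₁ p hp
      obtain ⟨u, hu⟩ := ha₂ p hp
      refine ⟨v, v - u, hv, fun g i hd => hu g i ?_⟩
      have e : v - u - (v + (h₂ g i : ℤ)) = -(u + h₂ g i) := by ring
      rw [e, dvd_neg] at hd
      exact hd)
  have tN : Filter.Tendsto (fun N : ℕ => (N : ℝ)) Filter.atTop Filter.atTop :=
    tendsto_natCast_atTop_atTop
  have hlog : Filter.Tendsto (fun N : ℕ => Real.log (N : ℝ)) Filter.atTop Filter.atTop :=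
    Real.tendsto_log_atTop.comp tN
  obtain ⟨X₁, hX₁⟩ := Filter.eventually_atTop.1 (hlog.eventually_ge_atTop (4 + 2 * Real.log 5120))
  refine ⟨κ, hκ, max X₀ (max X₁ (5120 * 5120)), fun X hX => ?_⟩
  refine (h3 X ((le_max_left _ _).trans hX)).trans ?_
  have hXX₁ : X₁ ≤ X := ((le_max_left _ _).trans (le_max_right _ _)).trans hX
  have hXb : 5120 * 5120 ≤ X := ((le_max_right _ _).trans (le_max_right _ _)).trans hX
  have hlX := hX₁ X hXX₁
  have hl5 : 0 ≤ Real.log 5120 := Real.log_nonneg (by norm_num)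
  have hX0 : (0 : ℝ) < X := by exact_mod_cast (by omega : 0 < X)
  rw [Nat.cast_le]
  apply card_le_card
  intro N hN
  obtain ⟨hN1, hN2, hNN⟩ := mem_filter.1 hN
  obtain ⟨τ₁, τ₂, hcl⟩ := hNN
  obtain ⟨hN3, hN4⟩ := mem_Icc.1 hN1
  have hN5 : 5120 ≤ N := by omega
  have hNr : (5120 : ℝ) ≤ N := by exact_mod_cast hN5
  have hN0 : (0 : ℝ) < N := by linarith
  refine mem_filter.2 ⟨hN1, ?_, ?_⟩
  · have hpos : 0 < Real.sqrt X / Real.log X ^ A := by
      have : 0 < Real.log X := by linarith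
      positivity
    have hne := lt_of_lt_of_le hpos hcl
    rw [Nat.cast_pos, card_pos] at hne
    obtain ⟨p, hm⟩ := hne
    obtain ⟨hm1, hp, ⟨q, hq, hq2⟩, hp2, hp3, -, -⟩ := mem_filter.1 hm
    have hNpq : N = p + q := by
      have : (N : ℤ) = p + q := by
        rw [hq2]
        ring
      exact_mod_cast this
    have hp71 : 71 ≤ p := by
      by_contra hcon
      have : p ≤ 70 := by omega
      nlinarith
    have hq3 : q ≠ 2 := by
      intro h0
      rw [hNpq, h0] at hp3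
      nlinarith
    have hpo : Odd p := hp.odd_of_ne_two (by omega)
    have hqo : Odd q := hq.odd_of_ne_two hq3
    rw [hNpq]
    exact hpo.add_odd hqo
  · refine ⟨τ₁, τ₂, ?_⟩
    have hlN : Real.log X / 2 ≤ Real.log N := by
      have e1 : (X : ℝ) ≤ 5120 * N := by exact_mod_cast hN2
      have e2 := Real.log_le_log hX0 e1
      rw [Real.log_mul (by norm_num) hN0.ne'] at e2
      linarith
    have e1 : Real.log X ^ A ≤ Real.log N ^ (2 * A) := by
      rw [pow_mul]
      apply pow_le_pow_left₀ (by linarith)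
      have e2 : (Real.log X / 2) ^ 2 ≤ Real.log N ^ 2 := pow_le_pow_left₀ (by linarith) hlN 2
      nlinarith
    have e2 : Real.sqrt N / Real.log N ^ (2 * A) ≤ Real.sqrt X / Real.log X ^ A := by
      have e3 : Real.sqrt N ≤ Real.sqrt X := Real.sqrt_le_sqrt (by exact_mod_cast hN4)
      have e4 : 0 < Real.log X := by linarith
      gcongr
    refine e2.trans (hcl.trans ?_)
    rw [Nat.cast_le]
    apply card_le_card
    intro p hm
    obtain ⟨hm1, hp, ⟨q, hq, hq2⟩, hp2, hp3, hp4, hp5⟩ := mem_filter.1 hm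
    have hNpq : N = p + q := by
      have : (N : ℤ) = p + q := by
        rw [hq2]
        ring
      exact_mod_cast this
    have hp0 : (0 : ℝ) < p := by exact_mod_cast hp.pos
    unfold riveraPrimes
    refine mem_filter.2 ⟨mem_Icc.2 ⟨hp.one_lt.le, by omega⟩, hp, ?_, ?_, ?_, fun g => hp4 g, fun g => ?_⟩
    · have : N - p = q := by omega
      rw [this]
      exact hq
    · rw [Real.sqrt_lt' hp0]
      exact_mod_cast hp2
    · have e3 : (p : ℝ) / 4 < Real.sqrt N := by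
        rw [Real.lt_sqrt (by positivity)]
        have : (p : ℝ) ^ 2 < 16 * N := by exact_mod_cast hp3
        linarith
      linarith
    · obtain ⟨z, hz1, hz2, hz3⟩ := hp5 g
      exact ⟨z, hz1, by rw [hz2]; ring, hz3⟩

end Pool.Agent.Results.MP_b454d1_nt.RiveraPrimesWithNeighbours
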